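import Pool.Agent.MP_4c4330_an.Gen.R2
import Pool.Agent.MP_4c4330_an.Gen.Back
import Pool.Agent.MP_4c4330_an.Gen.FnGen

open MeasureTheory Set Filter Topology

namespace Pool.Agent.Results.MP_4c4330_an.GenericExactRate

open Pool.Agent.MP_4c4330_an Pool.Agent.MP_4c4330_an.Gen

/-- For every non-empty bounded open set `Ω` of `ℝ^N`, `N ≥ 1`, and all `a, α > 0` there is `δ > 0`
such that for generic initial data `x` in the energy space `H¹₀(Ω) × L²(Ω)` (all data in a
countable intersection of open dense sets) there is a trajectory `U` with `U 0 = x`, and every such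
trajectory satisfies `t ^ (2 / α) E(t) > δ` for arbitrarily large `t`. -/
theorem result (N : ℕ) (hN : 0 < N) (Ω : Set (EuclideanSpace ℝ (Fin N))) (hΩ : IsOpen Ω)
    (hb : Bornology.IsBounded Ω) (hne : Ω.Nonempty) (a α : ℝ) (ha : 0 < a) (hα : 0 < α) :
    Fn.GenericLimsup Ω a α := by
  obtain ⟨δ, hδ, h⟩ := main2 hN hΩ hb hne ha hα
  refine ⟨δ, hδ, ?_⟩
  rw [Filter.Eventually, mem_residual_iff] at h
  obtain ⟨S, hS1, hS2, hS3, hS4⟩ := h
  -- an enumeration of the countable family
  obtain ⟨f, hf1, hf2⟩ : ∃ f : ℕ → Set (EnergySpace Ω), (∀ n, IsOpen (f n) ∧ Dense (f n)) ∧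
      ⋂ n, f n ⊆ ⋂₀ S := by
    rcases S.eq_empty_or_nonempty with he | he
    · refine ⟨fun _ => univ, fun _ => ⟨isOpen_univ, dense_univ⟩, ?_⟩
      rw [he]; simp
    · obtain ⟨f, hf⟩ := hS3.exists_eq_range he
      refine ⟨f, fun n => ⟨hS1 _ (hf ▸ mem_range_self n), hS2 _ (hf ▸ mem_range_self n)⟩, ?_⟩
      rw [hf, sInter_range]
  refine ⟨fun n => {x | cls' Ω x ∈ f n}, ?_, ?_⟩
  · intro n
    constructor
    · intro x hx hx'
      have hx1 : cls' Ω x ∈ f n := hx
      obtain ⟨ε, hε, hball⟩ := Metric.isOpen_iff.1 (hf1 n).1 _ hx1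
      refine ⟨ε ^ 2, by positivity, fun y hy hxy => ?_⟩
      show cls' Ω y ∈ f n
      apply hball
      rw [Metric.mem_ball, dist_eq_norm, cls'_eq hy, cls'_eq hx']
      rw [energy_clsOf_sub hy hx'] at hxy
      exact lt_of_pow_lt_pow_left₀ 2 hε.le hxy
    · intro x hx ε hε
      obtain ⟨z, hz1, hz2⟩ := (hf1 n).2.exists_dist_lt (clsOf hx) (show 0 < √ε by positivity)
      refine ⟨fnOf z, ?_, fnOf_mem z, ?_⟩
      · show cls' Ω (fnOf z) ∈ f n
        have e : cls' Ω (fnOf z) = z := by
          rw [cls'_eq (fnOf_mem z)]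
          have h1 := energy_fnOf_sub (clsOf (fnOf_mem z)) z
          have h2 : Fn.energy Ω (fnOf (clsOf (fnOf_mem z)) - fnOf z) = 0 := by
            have h3 : Fn.energy Ω (fnOf (clsOf (fnOf_mem z)) - fnOf z)
                = Fn.energy Ω (fnOf z - fnOf z) := by
              apply energy_congr
              · filter_upwards [(fnOf_clsOf (fnOf_mem z)).1] with y hy
                show (fnOf (clsOf (fnOf_mem z))).1 y - (fnOf z).1 y = (fnOf z).1 y - (fnOf z).1 y
                rw [hy]
              · filter_upwards [(fnOf_clsOf (fnOf_mem z)).2] with y hy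
                show (fnOf (clsOf (fnOf_mem z))).2 y - (fnOf z).2 y = (fnOf z).2 y - (fnOf z).2 y
                rw [hy]
            rw [h3, energy_fnOf_sub, sub_self, norm_zero]
            norm_num
          rw [h2] at h1
          exact sub_eq_zero.1 (norm_eq_zero.1 (pow_eq_zero_iff two_ne_zero |>.1 h1.symm))
        rw [e]
        exact hz1
      · have h1 : Fn.energy Ω (fnOf z - x) = ‖z - clsOf hx‖ ^ 2 := by
          rw [← energy_fnOf_sub]
          apply energy_congr
          · filter_upwards [(fnOf_clsOf hx).1] with y hy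
            show (fnOf z).1 y - x.1 y = (fnOf z).1 y - (fnOf (clsOf hx)).1 y
            rw [hy]
          · filter_upwards [(fnOf_clsOf hx).2] with y hy
            show (fnOf z).2 y - x.2 y = (fnOf z).2 y - (fnOf (clsOf hx)).2 y
            rw [hy]
        rw [h1]
        rw [dist_eq_norm, norm_sub_rev] at hz2
        calc ‖z - clsOf hx‖ ^ 2 < (√ε) ^ 2 := pow_lt_pow_left₀ hz2 (norm_nonneg _) two_ne_zero
          _ = ε := Real.sq_sqrt hε.le
  · intro x hx hG
    have hx1 : clsOf hx ∈ ⋂₀ S := by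
      apply hf2
      rw [mem_iInter]
      intro n
      have := hG n
      rw [← cls'_eq hx]
      exact this
    obtain ⟨U, hU, hU0, h1, -⟩ := hS4 hx1
    refine ⟨traj_fn hx hU hU0, ?_⟩
    intro V hV hV0 T₀
    obtain ⟨t, ht, ht0, h3⟩ := h1 T₀
    refine ⟨t, ht, ht0, ?_⟩
    have hV' := traj_cls hV
    have e0 : (fun t => cls' Ω (V t)) 0 = U 0 := by
      show cls' Ω (V 0) = U 0
      rw [hV0, cls'_eq hx, hU0]
    have e1 := traj_unique ha hα hV' hU e0 ht0.le
    have e2 : cls' Ω (V t) = U t := e1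
    rw [energy_clsOf (hV.1 t ht0.le), ← cls'_eq (hV.1 t ht0.le), e2]
    exact h3

end Pool.Agent.Results.MP_4c4330_an.GenericExactRate
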