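import Pool.Agent.MP_4c4330_an.Limit

open Set MeasureTheory Pool.Agent.MP_4c4330_an

namespace Pool.Agent.Results.MP_4c4330_an.OneDim

/-- One space dimension, arbitrary bounded interval `(A, B)`, arbitrary `a, α > 0`: every
non-trivial solution (in the energy space) of `u_tt - u_xx + a |u_t|^α u_t = 0` with Dirichlet
conditions satisfies `E(t) ∼ (1+t)^(-2/α)`. -/
theorem result (A B a α : ℝ) (hAB : A < B) (ha : 0 < a) (hα : 0 < α) (P V : ℝ → ℝ → ℝ)
    (h : IsEnergySolution A B a α P V)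
    (hne : ¬ (P 0 =ᵐ[volume.restrict (Ioo A B)] 0 ∧ V 0 =ᵐ[volume.restrict (Ioo A B)] 0)) :
    ∃ c C : ℝ, 0 < c ∧ c ≤ C ∧ ∀ t ≥ 0,
      c * (1 + t) ^ (-(2 / α)) ≤ ∫ x in Ioo A B, ((V t x) ^ 2 + (P t x) ^ 2) ∧
      ∫ x in Ioo A B, ((V t x) ^ 2 + (P t x) ^ 2) ≤ C * (1 + t) ^ (-(2 / α)) := by
  have hE : 0 < energy A B P V 0 := by
    have h0 : 0 ≤ energy A B P V 0 := integral_nonneg (fun x => by positivity)
    rcases h0.lt_or_eq with h1 | h1
    · exact h1
    · exfalso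
      apply hne
      have i1 : Integrable (fun x => (V 0 x) ^ 2 + (P 0 x) ^ 2) (volume.restrict (Ioo A B)) :=
        (h.memV 0 le_rfl).integrable_sq.add (h.memP 0 le_rfl).integrable_sq
      have h2 := (integral_eq_zero_iff_of_nonneg (fun x => by positivity) i1).1 h1.symm
      constructor
      · filter_upwards [h2] with x hx
        have hx' : (V 0 x) ^ 2 + (P 0 x) ^ 2 = 0 := hx
        have : (P 0 x) ^ 2 = 0 := by nlinarith [sq_nonneg (V 0 x), sq_nonneg (P 0 x)]
        simpa using this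
      · filter_upwards [h2] with x hx
        have hx' : (V 0 x) ^ 2 + (P 0 x) ^ 2 = 0 := hx
        have : (V 0 x) ^ 2 = 0 := by nlinarith [sq_nonneg (V 0 x), sq_nonneg (P 0 x)]
        simpa using this
  obtain ⟨c, C, hc, _, hb⟩ := decay hAB ha hα h hE
  refine ⟨c, C, hc, ?_, hb⟩
  have h3 := hb 0 le_rfl
  have h4 := h3.1.trans h3.2
  simpa using h4

end Pool.Agent.Results.MP_4c4330_an.OneDim
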