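import Pool.Agent.MP_4c4330_an.Rad.Final

open Set MeasureTheory Pool.Agent.MP_4c4330_an.Rad

namespace Pool.Agent.Results.MP_4c4330_an.RadialBall

/-- `Ω` a ball of `ℝ³` of any radius `ℓ`, arbitrary `a, α > 0`: every non-trivial radial solution of
`u_tt - Δu + a |u_t|^α u_t = 0` with Dirichlet condition, regular in the sense of
`IsRadialSolution`, satisfies `E(t) ∼ (1+t)^(-2/α)`. -/
theorem result (ℓ a α : ℝ) (hℓ : 0 < ℓ) (ha : 0 < a) (hα : 0 < α)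
    (u : ℝ → EuclideanSpace ℝ (Fin 3) → ℝ) (hu : IsRadialSolution ℓ a α u)
    (hne : ¬ (u 0 =ᵐ[volume.restrict (Metric.ball 0 ℓ)] 0 ∧
      timeD u 0 =ᵐ[volume.restrict (Metric.ball 0 ℓ)] 0)) :
    ∃ c C : ℝ, 0 < c ∧ c ≤ C ∧ ∀ t ≥ 0,
      c * (1 + t) ^ (-(2 / α)) ≤ ∫ x in Metric.ball (0 : EuclideanSpace ℝ (Fin 3)) ℓ,
        ((timeD u t x) ^ 2 + ‖fderiv ℝ (u t) x‖ ^ 2) ∧
      ∫ x in Metric.ball (0 : EuclideanSpace ℝ (Fin 3)) ℓ,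
        ((timeD u t x) ^ 2 + ‖fderiv ℝ (u t) x‖ ^ 2) ≤ C * (1 + t) ^ (-(2 / α)) :=
  radial_decay hℓ ha hα hu hne

end Pool.Agent.Results.MP_4c4330_an.RadialBall
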