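import Pool.Agent.MP_4c4330_an.SuperCrit
import Pool.Agent.MP_4c4330_an.FBridge

open MeasureTheory Set Filter Topology

namespace Pool.Agent.Results.MP_4c4330_an.Supercritical

open Pool.Agent.MP_4c4330_an

/-- In dimension `N ≥ 3`, for `α > 4 / (N - 2)` and every non-empty open set `Ω`: for every positive
function `θ` with limit `0` at infinity, the initial data in the energy space whose trajectory
satisfies `sup_{t ≥ 0} E(t) / θ(t) = ∞` are dense. -/
theorem result {E : Type*} [NormedAddCommGroup E] [InnerProductSpace ℝ E] [FiniteDimensional ℝ E]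
    [MeasurableSpace E] [BorelSpace E] (hN : 3 ≤ Module.finrank ℝ E) (Ω : Set E) (hΩ : IsOpen Ω)
    (hne : Ω.Nonempty) (a α : ℝ) (ha : 0 < a) (hα : 4 / ((Module.finrank ℝ E : ℝ) - 2) < α)
    (θ : ℝ → ℝ) (hθ : ∀ t, 0 < θ t) (hlim : Tendsto θ atTop (𝓝 0))
    (x : (E → E) × (E → ℝ)) (hx : Fn.InEnergySpace Ω x) (ε : ℝ) (hε : 0 < ε) :
    ∃ U : ℝ → (E → E) × (E → ℝ), Fn.IsTrajectory Ω a α U ∧ Fn.energy Ω (U 0 - x) < ε ∧
      0 < Fn.energy Ω (U 0) ∧ ∀ C : ℝ, ∃ t ≥ 0, C * θ t < Fn.energy Ω (U t) := by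
  have hN3 : (3:ℝ) ≤ Module.finrank ℝ E := by exact_mod_cast hN
  have hα0 : 0 < α := lt_trans (by apply div_pos (by norm_num); linarith) hα
  have hres := generic_slow (Ω := Ω) hN hΩ hne ha hα hlim
  have hdense := dense_of_mem_residual hres
  obtain ⟨z, hz1, hz2⟩ := hdense.exists_dist_lt (clsOf hx) (show 0 < √ε by positivity)
  obtain ⟨U, hU0, hU⟩ := traj_exists hΩ ha hα0 z
  have hsup : ∀ C : ℝ, ∃ t ≥ 0, C * θ t < Fn.energy Ω (fnOf (U t)) := by
    intro C
    obtain ⟨t, ht, h⟩ := hz1 U hU hU0 C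
    refine ⟨t, ht, ?_⟩
    rw [energy_fnOf]
    rwa [abs_of_pos (hθ t)] at h
  refine ⟨fun t => fnOf (U t), traj_fnOf hU, ?_, ?_, hsup⟩
  · -- distance to the given data
    have h1 : Fn.energy Ω (fnOf (U 0) - x) = ‖z - clsOf hx‖ ^ 2 := by
      rw [← energy_fnOf_sub, hU0]
      apply energy_congr
      · filter_upwards [(fnOf_clsOf hx).1] with y hy
        show (fnOf z).1 y - x.1 y = (fnOf z).1 y - (fnOf (clsOf hx)).1 y
        rw [hy]
      · filter_upwards [(fnOf_clsOf hx).2] with y hy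
        show (fnOf z).2 y - x.2 y = (fnOf z).2 y - (fnOf (clsOf hx)).2 y
        rw [hy]
    rw [h1]
    rw [dist_eq_norm, norm_sub_rev] at hz2
    calc ‖z - clsOf hx‖ ^ 2 < (√ε) ^ 2 := pow_lt_pow_left₀ hz2 (norm_nonneg _) two_ne_zero
      _ = ε := Real.sq_sqrt hε.le
  · -- the data are not trivial
    show 0 < Fn.energy Ω (fnOf (U 0))
    rw [energy_fnOf]
    obtain ⟨t, ht, h⟩ := hsup 0
    rw [zero_mul, energy_fnOf] at h
    have h1 : ‖U t‖ ≤ ‖U 0‖ := by
      rcases ht.lt_or_eq with h0 | h0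
      · obtain ⟨y, y0, ys, yl⟩ := hU t h0
        apply le_of_tendsto yl.norm
        filter_upwards [eventually_gt_atTop 0] with n hn
        have hn' : (0:ℝ) < n := by exact_mod_cast hn
        have h2 : ∀ k, ‖y n k‖ ≤ ‖y n 0‖ := by
          intro k
          induction k with
          | zero => exact le_rfl
          | succ k ih =>
            have h3 := (step_energy hα0 (by positivity) (ys n hn k)).2
            have h4 : 0 ≤ ∫ z in Ω, |(y n (k + 1)).snd z| ^ (α + 2) :=
              integral_nonneg (fun z => by positivity)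
            have h5 : ‖y n (k + 1)‖ ≤ ‖y n k‖ := by
              apply le_of_sq_le_sq _ (norm_nonneg _)
              have : 0 ≤ 2 * (t / n * a * ∫ z in Ω, |(y n (k + 1)).snd z| ^ (α + 2)) := by
                positivity
              linarith
            exact h5.trans ih
        rw [← y0 n]
        exact h2 n
      · rw [← h0]
    exact lt_of_lt_of_le h (pow_le_pow_left₀ (norm_nonneg _) h1 2)

end Pool.Agent.Results.MP_4c4330_an.Supercritical
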